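import Pool.Agent.Q195.TG1

set_option autoImplicit false

open Filter Topology Pool.Agent.Q195.TG

namespace Pool.Agent.Results.MP_8f7167_an.TailSumFails

/-- A consistent matrix `T` and a `T`-basis of Hilbert space which is not a `γ`-basis with respect
to the tail-sum matrix: for some `z` already the first series diverges. -/
theorem result : ∀ (𝕜 : Type) [RCLike 𝕜],
    Pool.Agent.Q195.TG.TailSumFails 𝕜 (lp (fun _ : ℕ => 𝕜) 2) := by
  intro 𝕜 _
  refine ⟨T, x, f, consistent, tbasis, mbasis, ?_, z0, diverge⟩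
  rintro ⟨_, h⟩
  obtain ⟨τ, h1, _⟩ := h z0
  exact diverge ⟨τ 0, h1 0⟩

end Pool.Agent.Results.MP_8f7167_an.TailSumFails
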